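import Pool.Agent.H11.NS.Targets

/-!
# Board ns, module EI: commuting operators of order three
-/

set_option autoImplicit false

namespace Pool.Agent.H11.NS

/-- the finite check -/
theorem ei_check : ∀ x0 x1 x2 x3 z : Fin 3, x0 ≠ 0 → x1 ≠ 0 → ∃ e0 e1 e2 e3 : Fin 2,
    ((e0.val + 1) * x0.val + (e1.val + 1) * x1.val + (e2.val + 1) * x2.val +
      (e3.val + 1) * x3.val + z.val) % 3 = 0 ∧
    (((e0.val + 1) * x0.val) % 3 ≠ ((e1.val + 1) * x1.val) % 3 ∨
      ((e0.val + 1) * x0.val) % 3 ≠ ((e2.val + 1) * x2.val) % 3 ∨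
      ((e0.val + 1) * x0.val) % 3 ≠ ((e3.val + 1) * x3.val) % 3) := by
  decide

/-- decomposition in eigenvectors of an operator of order three -/
theorem ei_dec {F W : Type} [Field F] [AddCommGroup W] [Module F W] {ω : F} (h3 : ω ^ 3 = 1)
    (h1 : ω ≠ 1) (hc : (3 : F) ≠ 0) (T : Module.End F W) (hT : T ^ 3 = 1) (P : Submodule F W)
    (hP : ∀ v ∈ P, T v ∈ P) (Q : W → Prop) (hQ : ∀ u v, Q u → Q v → Q (u + v))
    (h : ∀ x : Fin 3, ∀ v ∈ P, T v = ω ^ x.val • v → Q v) : ∀ v ∈ P, Q v := by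
  have hs : ω ^ 2 + ω + 1 = 0 := by
    have h4 : (ω - 1) * (ω ^ 2 + ω + 1) = 0 := by ring_nf; rw [h3]; ring
    rcases mul_eq_zero.1 h4 with h5 | h5
    · exact absurd (sub_eq_zero.1 h5) h1
    · exact h5
  intro v hv
  have hT3 : T (T (T v)) = v := by
    have h4 : (T ^ 3) v = v := by rw [hT]; rfl
    rwa [pow_succ, pow_succ, pow_one, Module.End.mul_apply, Module.End.mul_apply] at h4
  have hmem : ∀ a b : F, (3 : F)⁻¹ • (v + a • T v + b • T (T v)) ∈ P := fun a b =>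
    P.smul_mem _ (P.add_mem (P.add_mem hv (P.smul_mem _ (hP _ hv)))
      (P.smul_mem _ (hP _ (hP _ hv))))
  have hQ0 := h 0 _ (hmem 1 1) (by
    simp only [map_smul, map_add, hT3, one_smul, Fin.val_zero, pow_zero]
    congr 1
    abel)
  have hQ1 := h 1 _ (hmem (ω ^ 2) ω) (by
    simp only [map_smul, map_add, hT3, Fin.val_one, pow_one]
    rw [smul_comm ω ((3 : F)⁻¹)]
    congr 1
    simp only [smul_add, smul_smul]
    have e1 : ω * ω ^ 2 = 1 := by rw [← h3]; ring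
    rw [e1, one_smul, ← pow_two]
    abel)
  have hQ2 := h 2 _ (hmem ω (ω ^ 2)) (by
    simp only [map_smul, map_add, hT3, Fin.val_two]
    rw [smul_comm (ω ^ 2) ((3 : F)⁻¹)]
    congr 1
    simp only [smul_add, smul_smul]
    have e1 : ω ^ 2 * ω = 1 := by rw [← h3]; ring
    have e2 : ω ^ 2 * ω ^ 2 = ω := by
      calc ω ^ 2 * ω ^ 2 = ω ^ 3 * ω := by ring
        _ = ω := by rw [h3, one_mul]
    rw [e1, e2, one_smul]
    abel)
  have h5 := hQ _ _ (hQ _ _ hQ0 hQ1) hQ2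
  have h6 : (3 : F)⁻¹ • (v + (1 : F) • T v + (1 : F) • T (T v)) +
      (3 : F)⁻¹ • (v + ω ^ 2 • T v + ω • T (T v)) + (3 : F)⁻¹ • (v + ω • T v + ω ^ 2 • T (T v)) =
      v := by
    rw [← smul_add, ← smul_add]
    have e3 : v + (1 : F) • T v + (1 : F) • T (T v) + (v + ω ^ 2 • T v + ω • T (T v)) +
        (v + ω • T v + ω ^ 2 • T (T v)) = (3 : F) • v + (ω ^ 2 + ω + 1) • T v +
          (ω ^ 2 + ω + 1) • T (T v) := by
      have : (3 : F) • v = v + v + v := by
        rw [show (3 : F) = 1 + 1 + 1 by norm_num, add_smul, add_smul, one_smul]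
      rw [this]
      simp only [add_smul, one_smul]
      abel
    rw [e3, hs, zero_smul, zero_smul, add_zero, add_zero, smul_smul, inv_mul_cancel₀ hc, one_smul]
  rwa [h6] at h5

/-- the eigenspace inside of `P` -/
def eiS {F W : Type} [Field F] [AddCommGroup W] [Module F W] (T : Module.End F W) (a : F)
    (P : Submodule F W) : Submodule F W where
  carrier := {v | v ∈ P ∧ T v = a • v}
  add_mem' := by
    rintro u v ⟨h1, h2⟩ ⟨h3, h4⟩
    exact ⟨P.add_mem h1 h3, by rw [map_add, h2, h4, smul_add]⟩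
  zero_mem' := ⟨P.zero_mem, by rw [map_zero, smul_zero]⟩
  smul_mem' := by
    rintro c v ⟨h1, h2⟩
    exact ⟨P.smul_mem c h1, by rw [map_smul, h2, smul_comm]⟩

theorem eiS_inv {F W : Type} [Field F] [AddCommGroup W] [Module F W] {T S : Module.End F W}
    (hTS : Commute S T) {a : F} {P : Submodule F W} (hP : ∀ v ∈ P, S v ∈ P) :
    ∀ v ∈ eiS T a P, S v ∈ eiS T a P := by
  rintro v ⟨h1, h2⟩
  refine ⟨hP v h1, ?_⟩
  have h3 : (T * S) v = (S * T) v := by rw [hTS.eq]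
  rw [Module.End.mul_apply, Module.End.mul_apply] at h3
  rw [h3, h2, map_smul]

theorem ei_pow {F W : Type} [Field F] [AddCommGroup W] [Module F W] {T : Module.End F W} {a : F}
    {v : W} (h : T v = a • v) (n : ℕ) : (T ^ n) v = a ^ n • v := by
  induction n with
  | zero => rw [pow_zero, pow_zero, one_smul]; rfl
  | succ n ih => rw [pow_succ, Module.End.mul_apply, h, map_smul, ih, smul_smul, pow_succ, mul_comm]

theorem pf_ei : T_EI := by
  intro F W _ _ _ ω h3 h1 hc s b hs hb hcs hcb hyp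
  let Q : W → Prop := fun v => s 0 (s 1 v) - s 0 v - s 1 v + v = 0
  have hQ : ∀ u v, Q u → Q v → Q (u + v) := by
    intro u v hu hv
    show s 0 (s 1 (u + v)) - s 0 (u + v) - s 1 (u + v) + (u + v) = 0
    have hu' : s 0 (s 1 u) - s 0 u - s 1 u + u = 0 := hu
    have hv' : s 0 (s 1 v) - s 0 v - s 1 v + v = 0 := hv
    have e : s 0 (s 1 (u + v)) - s 0 (u + v) - s 1 (u + v) + (u + v) =
        (s 0 (s 1 u) - s 0 u - s 1 u + u) + (s 0 (s 1 v) - s 0 v - s 1 v + v) := by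
      simp only [map_add]
      abel
    rw [e, hu', hv', add_zero]
  have hord : orderOf ω = 3 := orderOf_eq_prime h3 h1
  have hpow : ∀ m n : ℕ, m % 3 ≠ n % 3 → ω ^ m ≠ ω ^ n := by
    intro m n hmn he
    have hpr : IsPrimitiveRoot ω 3 := hord ▸ IsPrimitiveRoot.orderOf ω
    rw [← pow_mod_orderOf ω m, ← pow_mod_orderOf ω n, hord] at he
    exact hmn (hpr.pow_inj (Nat.mod_lt _ (by norm_num)) (Nat.mod_lt _ (by norm_num)) he)
  -- joint eigenvectors
  have key : ∀ x0 x1 x2 x3 z : Fin 3, ∀ v : W, s 0 v = ω ^ x0.val • v → s 1 v = ω ^ x1.val • v →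
      s 2 v = ω ^ x2.val • v → s 3 v = ω ^ x3.val • v → b v = ω ^ z.val • v → Q v := by
    intro x0 x1 x2 x3 z v h0 h1' h2 h3' hbz
    by_cases hx0 : x0 = 0
    · show s 0 (s 1 v) - s 0 v - s 1 v + v = 0
      rw [hx0, Fin.val_zero, pow_zero, one_smul] at h0
      rw [h1', map_smul, h0]
      abel
    by_cases hx1 : x1 = 0
    · show s 0 (s 1 v) - s 0 v - s 1 v + v = 0
      rw [hx1, Fin.val_zero, pow_zero, one_smul] at h1'
      rw [h1']
      abel
    obtain ⟨e0, e1, e2, e3, hsum, hne⟩ := ei_check x0 x1 x2 x3 z hx0 hx1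
    have hv0 : v = 0 := by
      have hap := hyp ![e0.val + 1, e1.val + 1, e2.val + 1, e3.val + 1] (by
        intro i
        fin_cases i
        · show e0.val + 1 = 1 ∨ e0.val + 1 = 2
          omega
        · show e1.val + 1 = 1 ∨ e1.val + 1 = 2
          omega
        · show e2.val + 1 = 1 ∨ e2.val + 1 = 2
          omega
        · show e3.val + 1 = 1 ∨ e3.val + 1 = 2
          omega) v (by
        show (s 0 ^ (e0.val + 1)) ((s 1 ^ (e1.val + 1)) ((s 2 ^ (e2.val + 1))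
          ((s 3 ^ (e3.val + 1)) (b v)))) = v
        rw [hbz, map_smul, map_smul, map_smul, map_smul, ei_pow h3', map_smul, map_smul, map_smul,
          ei_pow h2, map_smul, map_smul, ei_pow h1', map_smul, ei_pow h0]
        simp only [smul_smul, ← pow_mul, ← pow_add]
        have hm : (z.val + (x3.val * (e3.val + 1) + (x2.val * (e2.val + 1) +
            (x1.val * (e1.val + 1) + x0.val * (e0.val + 1))))) % 3 = 0 := by
          rw [← hsum]
          congr 1
          ring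
        obtain ⟨k, hk⟩ := Nat.dvd_of_mod_eq_zero hm
        rw [hk, pow_mul, h3, one_pow, one_smul])
      have a0 : (s 0 ^ (e0.val + 1)) v = ω ^ (x0.val * (e0.val + 1)) • v := by
        rw [ei_pow h0, ← pow_mul]
      have a1 : (s 1 ^ (e1.val + 1)) v = ω ^ (x1.val * (e1.val + 1)) • v := by
        rw [ei_pow h1', ← pow_mul]
      have a2 : (s 2 ^ (e2.val + 1)) v = ω ^ (x2.val * (e2.val + 1)) • v := by
        rw [ei_pow h2, ← pow_mul]
      have a3 : (s 3 ^ (e3.val + 1)) v = ω ^ (x3.val * (e3.val + 1)) • v := by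
        rw [ei_pow h3', ← pow_mul]
      have fin : ∀ m n : ℕ, m % 3 ≠ n % 3 → ω ^ m • v = ω ^ n • v → v = 0 := by
        intro m n hmn he
        have h7 : (ω ^ m - ω ^ n) • v = 0 := by rw [sub_smul, he, sub_self]
        rcases smul_eq_zero.1 h7 with h8 | h8
        · exact absurd (sub_eq_zero.1 h8) (hpow m n hmn)
        · exact h8
      rcases hne with h | h | h
      · have h9 : (s 0 ^ (e0.val + 1)) v = (s 1 ^ (e1.val + 1)) v := hap 0 1
        rw [a0, a1] at h9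
        exact fin _ _ (by rwa [mul_comm x0.val, mul_comm x1.val]) h9
      · have h9 : (s 0 ^ (e0.val + 1)) v = (s 2 ^ (e2.val + 1)) v := hap 0 2
        rw [a0, a2] at h9
        exact fin _ _ (by rwa [mul_comm x0.val, mul_comm x2.val]) h9
      · have h9 : (s 0 ^ (e0.val + 1)) v = (s 3 ^ (e3.val + 1)) v := hap 0 3
        rw [a0, a3] at h9
        exact fin _ _ (by rwa [mul_comm x0.val, mul_comm x3.val]) h9
    show s 0 (s 1 v) - s 0 v - s 1 v + v = 0
    rw [hv0]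
    simp
  have hsc : ∀ i j, Commute (s i) (s j) := hcs
  intro v
  refine ei_dec h3 h1 hc b hb ⊤ (fun _ _ => trivial) Q hQ (fun z u hu hbu => ?_) v trivial
  refine ei_dec h3 h1 hc (s 3) (hs 3) (eiS b (ω ^ z.val) ⊤)
    (eiS_inv (hcb 3) fun _ _ => trivial) Q hQ (fun x3 u hu h3u => ?_) u ⟨hu, hbu⟩
  refine ei_dec h3 h1 hc (s 2) (hs 2) (eiS (s 3) (ω ^ x3.val) (eiS b (ω ^ z.val) ⊤))
    (eiS_inv (hcs 2 3) (eiS_inv (hcb 2) fun _ _ => trivial)) Q hQ (fun x2 u hu h2u => ?_) u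
    ⟨hu, h3u⟩
  refine ei_dec h3 h1 hc (s 1) (hs 1) (eiS (s 2) (ω ^ x2.val) (eiS (s 3) (ω ^ x3.val)
    (eiS b (ω ^ z.val) ⊤)))
    (eiS_inv (hcs 1 2) (eiS_inv (hcs 1 3) (eiS_inv (hcb 1) fun _ _ => trivial))) Q hQ
    (fun x1 u hu h1u => ?_) u ⟨hu, h2u⟩
  refine ei_dec h3 h1 hc (s 0) (hs 0) (eiS (s 1) (ω ^ x1.val) (eiS (s 2) (ω ^ x2.val)
    (eiS (s 3) (ω ^ x3.val) (eiS b (ω ^ z.val) ⊤))))
    (eiS_inv (hcs 0 1) (eiS_inv (hcs 0 2) (eiS_inv (hcs 0 3) (eiS_inv (hcb 0)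
      fun _ _ => trivial)))) Q hQ (fun x0 u hu h0u => ?_) u ⟨hu, h1u⟩
  obtain ⟨⟨⟨⟨-, hbu⟩, h3u⟩, h2u⟩, h1u⟩ := hu
  exact key x0 x1 x2 x3 z u h0u h1u h2u h3u hbu

end Pool.Agent.H11.NS
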